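import Mathlib
import Pool.Agent.Lib.Pb9311c.Defs
import Pool.Agent.Lib.Pb9311c.Top

set_option autoImplicit false

namespace Pool.Agent.Results.MP_b9311c_al.NotProP

open Matrix PowerSeries Pool.Agent.Lib.Pb9311c
open scoped PowerSeries.WithPiTopology

theorem coe_pow_SL {R : Type} [CommRing R] (g : SpecialLinearGroup (Fin 3) R) (n : ℕ) :
    (g ^ n).1 = g.1 ^ n := by
  induction n with
  | zero => rfl
  | succ n ih =>
    rw [pow_succ, pow_succ, ← ih]
    rfl

/-- There is a non-abelian profinite CSA-group that is not pro-`p` for any prime `p`. -/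
theorem result : ∃ (G : Type) (_ : Group G) (_ : TopologicalSpace G) (_ : IsTopologicalGroup G)
    (_ : CompactSpace G) (_ : T2Space G) (_ : TotallyDisconnectedSpace G),
    (∃ a b : G, a * b ≠ b * a) ∧ IsCSA G ∧ ∀ p : ℕ, p.Prime → ¬ IsProP p G := by
  classical
  let k : Type := GaloisField 2 3
  have : Fact (Nat.Prime 2) := ⟨Nat.prime_two⟩
  let fk : Field k := inferInstanceAs (Field (GaloisField 2 3))
  have : Finite k := inferInstanceAs (Finite (GaloisField 2 3))
  have : CharP k 2 := inferInstanceAs (CharP (GaloisField 2 3) 2)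
  have : Fintype k := Fintype.ofFinite k
  have hcard : Fintype.card k = 8 := by
    rw [← Nat.card_eq_fintype_card]
    exact GaloisField.card 2 3 (by norm_num)
  let s : k ≃+* k := frobeniusEquiv k 2
  have hk : ResField k s :=
    { two := CharTwo.two_eq_zero
      pow7 := by
        intro x hx
        have := FiniteField.pow_card_sub_one_eq_one x hx
        rwa [hcard] at this
      frob := fun x => by
        change frobeniusEquiv k 2 x = x ^ 2
        rw [frobeniusEquiv_def] }
  -- an element of the residue field different from `0` and `1`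
  obtain ⟨z, hz⟩ : ∃ z : k, z ∉ ({0, 1} : Finset k) := by
    by_contra h
    push Not at h
    have h1 : (Finset.univ : Finset k) ⊆ {0, 1} := fun z _ => h z
    have h2 := Finset.card_le_card h1
    rw [Finset.card_univ, hcard] at h2
    have h3 : ({0, 1} : Finset k).card ≤ 2 := Finset.card_le_two
    omega
  simp only [Finset.mem_insert, Finset.mem_singleton, not_or] at hz
  obtain ⟨hz0, hz1⟩ := hz
  have hz4 : z ^ 4 ≠ z := by
    intro h
    apply hz1
    apply hk.eq_one_of_cube
    have h1 : z * (z ^ 3 - 1) = 0 := by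
      have : z * (z ^ 3 - 1) = z ^ 4 - z := by ring
      rw [this, h, sub_self]
    exact sub_eq_zero.1 ((mul_eq_zero.1 h1).resolve_left hz0)
  have hs1 : ∃ x, s x ≠ x := by
    refine ⟨z, ?_⟩
    rw [hk.frob]
    intro h
    apply hz4
    calc z ^ 4 = (z ^ 2) ^ 2 := by ring
      _ = z := by rw [h, h]
  let tk : TopologicalSpace k := ⊥
  have : DiscreteTopology k := ⟨rfl⟩
  obtain ⟨c, hc⟩ := exists_c hk hz0
  obtain ⟨y, hy⟩ := exists_y hk hc
  have hrc := red_c hk hc
  -- the relevant elements of the reduction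
  have hrcy : (red s c * red s y).1 0 1 = z * (z ^ 4 - z) := by
    change ((red s c).1 * (red s y).1) 0 1 = _
    rw [hrc, hy]
    simp [Matrix.mul_apply, Fin.sum_univ_three]
  have hryc : (red s y * red s c).1 0 1 = (z ^ 4 - z) * z ^ 4 := by
    change ((red s y).1 * (red s c).1) 0 1 = _
    rw [hrc, hy]
    simp [Matrix.mul_apply, Fin.sum_univ_three]
  have hnc : c * y ≠ y * c := by
    intro h
    have h1 : red s c * red s y = red s y * red s c := by rw [← map_mul, h, map_mul]
    have h2 : (red s c * red s y).1 0 1 = (red s y * red s c).1 0 1 := by rw [h1]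
    rw [hrcy, hryc] at h2
    have h3 : (z ^ 4 - z) * (z ^ 4 - z) = 0 := by linear_combination -h2
    exact hz4 (sub_eq_zero.1 (mul_self_eq_zero.1 h3))
  -- `c` has order `7` in the reduction
  have hc7 : red s c ^ 7 = 1 := by
    apply Subtype.ext
    have h1 : ((red s c) ^ 7).1 = ((red s c).1) ^ 7 := coe_pow_SL (red s c) 7
    rw [h1, hrc]
    have h2 : (!![z, 0, 0; 0, z ^ 4, 0; 0, 0, z ^ 2] : Matrix (Fin 3) (Fin 3) k) =
        Matrix.diagonal ![z, z ^ 4, z ^ 2] := by
      ext i j
      fin_cases i <;> fin_cases j <;> simp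
    rw [h2, Matrix.diagonal_pow]
    have h3 : (![z, z ^ 4, z ^ 2] : Fin 3 → k) ^ 7 = fun _ => 1 := by
      ext i
      fin_cases i
      · exact hk.pow7 z hz0
      · exact hk.pow7 _ (pow_ne_zero _ hz0)
      · exact hk.pow7 _ (pow_ne_zero _ hz0)
    rw [h3, Matrix.diagonal_one]
    rfl
  have hc1 : red s c ≠ 1 := by
    intro h
    have h1 : (red s c).1 0 0 = (1 : Matrix (Fin 3) (Fin 3) k) 0 0 := by rw [h]; rfl
    rw [hrc] at h1
    exact hz1 (by simpa using h1)
  have hco : orderOf (red s c) = 7 := by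
    have : Fact (Nat.Prime 7) := ⟨by norm_num⟩
    exact orderOf_eq_prime hc7 hc1
  -- the element `u = y c⁻¹`
  let u : GG s := y * c⁻¹
  have huc : (red s u).1 * (red s c).1 = (red s y).1 := by
    have h1 : red s u * red s c = red s y := by
      rw [← map_mul]
      simp [u]
    exact congrArg Subtype.val h1
  rw [hrc, hy] at huc
  have hent := fun i j => congrFun (congrFun huc i) j
  simp only [Matrix.mul_apply, Fin.sum_univ_three] at hent
  have e00 := hent 0 0
  have e10 := hent 1 0
  have e20 := hent 2 0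
  have e11 := hent 1 1
  have e21 := hent 2 1
  have e22 := hent 2 2
  have e01 := hent 0 1
  simp at e00 e10 e20 e11 e21 e22 e01
  have hu00 : (red s u).1 0 0 = 1 := mul_right_cancel₀ hz0 (by rw [e00, one_mul])
  have hu10 : (red s u).1 1 0 = 0 := e10.resolve_right hz0
  have hu20 : (red s u).1 2 0 = 0 := e20.resolve_right hz0
  have hu11 : (red s u).1 1 1 = 1 := mul_right_cancel₀ (pow_ne_zero 4 hz0) (by rw [e11, one_mul])
  have hu21 : (red s u).1 2 1 = 0 := e21.resolve_right hz0
  have hu22 : (red s u).1 2 2 = 1 := mul_right_cancel₀ (pow_ne_zero 2 hz0) (by rw [e22, one_mul])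
  have hu4 : red s u ^ 4 = 1 := by
    apply Subtype.ext
    have h1 : ((red s u) ^ 4).1 = ((red s u).1) ^ 4 := coe_pow_SL (red s u) 4
    rw [h1]
    exact pow_four hk hu00 hu11 hu22 hu10 hu20 hu21
  have hu1 : red s u ≠ 1 := by
    intro h
    have h1 : (red s u).1 0 1 = 0 := by
      rw [h]
      rfl
    rw [h1, zero_mul] at e01
    exact hz4 (sub_eq_zero.1 e01.symm)
  have hcomp := compactGG s
  refine ⟨GG s, inferInstance, inferInstance, inferInstance, hcomp, inferInstance, inferInstance,
    ⟨c, y, hnc⟩, GG_isCSA hk hs1, ?_⟩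
  intro p hp hprop
  have hpg := hprop (red s).ker (isOpen_ker_red s)
  have hpow : ∀ g : GG s, ∃ n : ℕ, red s g ^ p ^ n = 1 := by
    intro g
    obtain ⟨n, hn⟩ := hpg (QuotientGroup.mk g)
    refine ⟨n, ?_⟩
    rw [← map_pow, ← MonoidHom.mem_ker, ← QuotientGroup.eq_one_iff]
    exact hn
  obtain ⟨n, hn⟩ := hpow c
  have h7 : 7 ∣ p ^ n := hco ▸ orderOf_dvd_of_pow_eq_one hn
  have h7p : 7 = p := by
    have h1 : Nat.Prime 7 := by norm_num
    exact (Nat.prime_dvd_prime_iff_eq h1 hp).1 (h1.dvd_of_dvd_pow h7)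
  subst h7p
  obtain ⟨m, hm⟩ := hpow u
  have h4 : orderOf (red s u) ∣ 4 := orderOf_dvd_of_pow_eq_one hu4
  have hm' : orderOf (red s u) ∣ 7 ^ m := orderOf_dvd_of_pow_eq_one hm
  have hcop : Nat.Coprime 4 (7 ^ m) := Nat.Coprime.pow_right m (by norm_num)
  have h1 : orderOf (red s u) = 1 := Nat.eq_one_of_dvd_coprimes hcop h4 hm'
  exact hu1 (orderOf_eq_one_iff.1 h1)

end Pool.Agent.Results.MP_b9311c_al.NotProP
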